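import Pool.Agent.V11323.DirectSum

/-!
# A Liouville random walk which is not algebraically recurrent

The group is the countable direct sum of infinite cyclic groups. Every bounded harmonic function of
an abelian group is constant (Blackwell, Choquet and Deny), and a heavy-tailed walk on the basis
vectors eventually stays in a proper subsemigroup.
-/

set_option autoImplicit false

open MeasureTheory

namespace Pool.Agent.Results.MP_a29a94_pr.LiouvilleNotAR

/-- The walk `X_m = ζ_1 ζ_2 ... ζ_m` with steps `ζ_{l+1} = ω l`. -/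
def walk {G : Type} [Group G] (ω : ℕ → G) (m : ℕ) : G := ((List.range m).map ω).prod

/-- `S_n`: the subsemigroup generated by `X_n, X_{n+1}, ...`. -/
def tail {G : Type} [Group G] (ω : ℕ → G) (n : ℕ) : Subsemigroup G :=
  Subsemigroup.closure {g | ∃ m, n ≤ m ∧ g = walk ω m}

/-- The pair `(G, μ)` is algebraically recurrent: for every `n ≥ 1`, almost surely `S_n = G`,
where the steps are independent with law `μ`. -/
def PairAR {G : Type} [Group G] (μ : PMF G) : Prop :=
  let _ : MeasurableSpace G := ⊤
  ∀ n : ℕ, 1 ≤ n → ∀ᵐ ω ∂(Measure.infinitePi (fun _ : ℕ => μ.toMeasure)), tail ω n = ⊤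

/-- The `μ`-random walk is Liouville: every bounded `μ`-harmonic function is constant. -/
def Liouville {G : Type} [Group G] (μ : PMF G) : Prop :=
  ∀ f : G → ℝ, (∃ C : ℝ, ∀ g, |f g| ≤ C) → (∀ g, f g = ∑' h, (μ h).toReal * f (g * h)) →
    ∃ c : ℝ, ∀ g, f g = c

section Helpers

theorem hasSum_toReal {G : Type} (μ : PMF G) : HasSum (fun h => (μ h).toReal) 1 := by
  have h1 : Summable fun h => (μ h).toReal := ENNReal.summable_toReal (by
    rw [μ.tsum_coe]; exact ENNReal.one_ne_top)
  have h2 := ENNReal.tsum_toReal_eq (f := fun h => μ h) (fun h => PMF.apply_ne_top μ h)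
  rw [μ.tsum_coe, ENNReal.toReal_one] at h2
  rw [h2]
  exact h1.hasSum

theorem summable_mul {G : Type} (μ : PMF G) (f : G → ℝ) (C : ℝ) (hC : ∀ g, |f g| ≤ C) :
    Summable fun h => (μ h).toReal * f h := by
  have h1 : Summable fun h => (μ h).toReal * C := (hasSum_toReal μ).summable.mul_right C
  refine Summable.of_norm_bounded h1 fun h => ?_
  rw [Real.norm_eq_abs, abs_mul, abs_of_nonneg ENNReal.toReal_nonneg]
  exact mul_le_mul_of_nonneg_left (hC h) ENNReal.toReal_nonneg

variable {G : Type} [CommGroup G] (μ : PMF G)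

/-- one step of the maximum principle -/
theorem step (u : G → ℝ) (C M : ℝ) (hC : ∀ g, |u g| ≤ C) (hM : ∀ g, u g ≤ M)
    (hu : ∀ g, u g = ∑' h, (μ h).toReal * u (g * h)) (g h : G) :
    (μ h).toReal * (M - u (g * h)) ≤ M - u g := by
  have h1 : HasSum (fun k => (μ k).toReal * (M - u (g * k))) (M - u g) := by
    have h2 : HasSum (fun k => (μ k).toReal * u (g * k)) (u g) := by
      rw [hu g]
      exact (summable_mul μ (fun k => u (g * k)) C fun k => hC _).hasSum
    have h3 := (hasSum_toReal μ).mul_right M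
    rw [one_mul] at h3
    have h4 := h3.sub h2
    simpa only [mul_sub] using h4
  exact le_hasSum h1 h fun k _ => mul_nonneg ENNReal.toReal_nonneg (sub_nonneg.2 (hM _))

theorem telescope (f : G → ℝ) (g h : G) (n : ℕ) :
    ∑ j ∈ Finset.range n, (f (g * h ^ j * h) - f (g * h ^ j)) = f (g * h ^ n) - f g := by
  induction n with
  | zero => simp
  | succ n ih => rw [Finset.sum_range_succ, ih, pow_succ, mul_assoc g (h ^ n) h]; ring

/-- a bounded harmonic function does not increase in the directions of the support -/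
theorem le_of_harmonic (f : G → ℝ) (C : ℝ) (hC : ∀ g, |f g| ≤ C)
    (hf : ∀ g, f g = ∑' h, (μ h).toReal * f (g * h)) (h : G) (hh : h ∈ μ.support) (g : G) :
    f (g * h) ≤ f g := by
  by_contra hcon
  push Not at hcon
  set u : G → ℝ := fun x => f (x * h) - f x with hudef
  have huC : ∀ x, |u x| ≤ 2 * C := by
    intro x
    have h1 := abs_sub (f (x * h)) (f x)
    have h2 := hC (x * h)
    have h3 := hC x
    simp only [hudef]
    linarith
  have hbdd : BddAbove (Set.range u) := ⟨2 * C, by
    rintro _ ⟨x, rfl⟩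
    exact (le_abs_self _).trans (huC x)⟩
  set M := sSup (Set.range u) with hMdef
  have hM : ∀ x, u x ≤ M := fun x => le_csSup hbdd ⟨x, rfl⟩
  have hMpos : 0 < M := lt_of_lt_of_le (by simp only [hudef]; linarith : 0 < u g) (hM g)
  have hu : ∀ x, u x = ∑' k, (μ k).toReal * u (x * k) := by
    intro x
    simp only [hudef]
    have h1 := (summable_mul μ (fun k => f (x * h * k)) C fun k => hC _).hasSum
    have h2 := (summable_mul μ (fun k => f (x * k)) C fun k => hC _).hasSum
    have h3 := h1.sub h2
    rw [← hf (x * h), ← hf x] at h3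
    rw [← h3.tsum_eq]
    apply tsum_congr
    intro k
    rw [mul_sub, mul_right_comm]
  set p := (μ h).toReal with hp
  have hp0 : 0 < p := ENNReal.toReal_pos ((PMF.mem_support_iff _ _).1 hh) (PMF.apply_ne_top μ h)
  obtain ⟨n, hn⟩ := exists_nat_gt (2 * C / (M / 2))
  have hp1 : p ≤ 1 := by
    have h1 : (μ h) ≤ 1 := PMF.coe_le_one μ h
    have h2 := ENNReal.toReal_mono ENNReal.one_ne_top h1
    simpa using h2
  obtain ⟨_, ⟨x, rfl⟩, hx⟩ := exists_lt_of_lt_csSup (Set.range_nonempty u)
    (show M - (M / 2) * p ^ n < M by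
      have : 0 < (M / 2) * p ^ n := by positivity
      linarith)
  have hj : ∀ j, p ^ j * (M - u (x * h ^ j)) ≤ M - u x := by
    intro j
    induction j with
    | zero => simp
    | succ j ih =>
      have h1 := step μ u (2 * C) M huC hM hu (x * h ^ j) h
      have h2 : x * h ^ (j + 1) = x * h ^ j * h := by rw [pow_succ, mul_assoc]
      rw [h2, pow_succ, mul_assoc]
      exact (mul_le_mul_of_nonneg_left h1 (by positivity)).trans ih
  have hlow : ∀ j ∈ Finset.range n, M / 2 ≤ u (x * h ^ j) := by
    intro j hj'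
    have hjn : j ≤ n := (Finset.mem_range.1 hj').le
    have h1 := hj j
    have h2 : p ^ n ≤ p ^ j := pow_le_pow_of_le_one hp0.le hp1 hjn
    have h3 : 0 < p ^ j := by positivity
    have h4 : p ^ j * (M - u (x * h ^ j)) ≤ p ^ j * (M / 2) := by
      calc p ^ j * (M - u (x * h ^ j)) ≤ M - u x := h1
        _ ≤ (M / 2) * p ^ n := by linarith
        _ ≤ (M / 2) * p ^ j := by
          apply mul_le_mul_of_nonneg_left h2; linarith
        _ = p ^ j * (M / 2) := by ring
    have h5 := le_of_mul_le_mul_left h4 h3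
    linarith
  have hsum := telescope f x h n
  have h6 : (n : ℝ) * (M / 2) ≤ f (x * h ^ n) - f x := by
    rw [← hsum]
    calc (n : ℝ) * (M / 2) = ∑ _j ∈ Finset.range n, M / 2 := by simp
      _ ≤ _ := Finset.sum_le_sum hlow
  have h7 : f (x * h ^ n) - f x ≤ 2 * C := by
    have h1 := abs_le.1 (hC (x * h ^ n))
    have h2 := abs_le.1 (hC x)
    linarith
  rw [div_lt_iff₀ (by linarith)] at hn
  linarith

/-- Every random walk on an abelian group whose support generates the group is Liouville. -/
theorem liouville (hgen : Subgroup.closure μ.support = ⊤) : Liouville μ := by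
  rintro f ⟨C, hC⟩ hf
  have h1 : ∀ h ∈ μ.support, ∀ g, f (g * h) = f g := by
    intro h hh g
    apply le_antisymm (le_of_harmonic μ f C hC hf h hh g)
    have h2 := le_of_harmonic μ (fun x => -f x) C (fun g => by rw [abs_neg]; exact hC g)
      (fun g => by
        rw [hf g, ← tsum_neg]
        exact tsum_congr fun k => by ring) h hh g
    linarith
  let S : Subgroup G :=
    { carrier := {h | ∀ g, f (g * h) = f g}
      mul_mem' := by
        intro a b ha hb g
        rw [← mul_assoc, hb, ha]
      one_mem' := fun g => by rw [mul_one]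
      inv_mem' := by
        intro a ha g
        rw [← ha (g * a⁻¹), inv_mul_cancel_right] }
  have hS : S = ⊤ := by
    rw [eq_top_iff, ← hgen, Subgroup.closure_le]
    exact h1
  refine ⟨f 1, fun g => ?_⟩
  have h3 : g ∈ S := by rw [hS]; exact Subgroup.mem_top g
  have h4 := h3 1
  rwa [one_mul] at h4

end Helpers

/-- There are a countable group `G` and a symmetric non-degenerate probability measure `μ` on `G`
whose random walk is Liouville, such that `(G, μ)` is not algebraically recurrent. -/
theorem result : ∃ (G : Type) (_ : Group G) (_ : Countable G) (μ : PMF G),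
    (∀ g : G, μ g⁻¹ = μ g) ∧ Subgroup.closure μ.support = ⊤ ∧ Liouville μ ∧ ¬ PairAR μ := by
  let _ : MeasurableSpace (Multiplicative (ℕ →₀ ℤ)) := ⊤
  have hd : DiscreteMeasurableSpace (Multiplicative (ℕ →₀ ℤ)) := ⟨fun _ => trivial⟩
  let e : ℕ ≃ ℕ := Equiv.refl ℕ
  have hc : Countable (Multiplicative (ℕ →₀ ℤ)) := inferInstanceAs (Countable (ℕ →₀ ℤ))
  have hgen := Pool.Agent.V11323.nu_closure _ (Pool.Agent.V11323.closure_bs e)
  refine ⟨Multiplicative (ℕ →₀ ℤ), inferInstance, hc,
    Pool.Agent.V11323.nu (Pool.Agent.V11323.bs e), Pool.Agent.V11323.nu_symm _, hgen, ?_, ?_⟩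
  · exact liouville _ hgen
  · intro h
    obtain ⟨n, hn, hpos⟩ := Pool.Agent.V11323.nu_pos (Pool.Agent.V11323.bs e)
      (Pool.Agent.V11323.co e) (Pool.Agent.V11323.co_bs e) (Pool.Agent.V11323.co_bs_ne e)
    exact hpos.ne' (ae_iff.1 (h n hn))

end Pool.Agent.Results.MP_a29a94_pr.LiouvilleNotAR
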